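import Pool.Agent.Y886.UTD

/-!
# MP_e3f158_nt: the full assertion of the question for `x ^ (1 - o(1))` of the integers `n ≤ x`

For all large `x` there are at least `x exp (- √(log x) log log x)` integers `n ≤ x` for which the assertion
of the question holds for ALL the types at once: `2 n` has a representation of type `(a, b)` for all `a`, `b`
with `f₂(a, b) ≤ n`.

All these types have `max a b ≤ A` and `min a b ≤ B` with `A ^ 2 ≤ log₂ x`, `2 B ^ 2 ≤ log₂ x`. So it is enough
that `2 n` is the sum of an `A`-prime and a different `B`-prime; the lower bound for the number of the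
`B`-primes is uniform in `B`.
-/

set_option autoImplicit false

open Filter Topology

namespace Pool.Agent.Results.MP_e3f158_nt.AllTypesAtOnce

/-- the `x`-th prime, for `x ≥ 1` -/
noncomputable def pr (x : ℕ) : ℕ := Nat.nth Nat.Prime (x - 1)

/-- the `x`-th `i`-prime, for `x ≥ 1`: the `(i + 1)`-fold iterate of `pr` -/
noncomputable def iPrime (i x : ℕ) : ℕ := pr^[i + 1] x

/-- `m` has a representation of type `(a, b)` -/
def HasRep (a b m : ℕ) : Prop :=
  ∃ x y : ℕ, 1 ≤ x ∧ 1 ≤ y ∧ iPrime a x + iPrime b y = m ∧ iPrime a x ≠ iPrime b y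

/-- the function `f₂` of the question -/
noncomputable def f₂ (a b : ℕ) : ℝ :=
  if a = b then
    (if a = 0 then (2 : ℝ) ^ (((a : ℝ) + 1) * (b + 1) * (a + b + 2))
      else (2 : ℝ) ^ (((a : ℝ) + 1) ^ 2 * (2 * a + 3) / a - 2 * a))
  else (2 : ℝ) ^ (((a : ℝ) + 1) * (b + 1) * (a + b + 2) - (a + b - 2))

/-- **All types at once.** -/
theorem result : ∀ᶠ x : ℕ in atTop,
    (x : ℝ) * Real.exp (-(√(Real.log x) * Real.log (Real.log x))) ≤
      Set.ncard {n : ℕ | n ≤ x ∧ ∀ a b : ℕ, f₂ a b ≤ n → HasRep a b (2 * n)} :=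
  Pool.Agent.Y886.UT.main3

end Pool.Agent.Results.MP_e3f158_nt.AllTypesAtOnce
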