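import Pool.Agent.Y886.UTC

/-!
# MP_e3f158_nt: all the types `(a, b)` with `a b = 0` at once, down to the threshold `f₂`

(1) There are `c, K > 0` such that for all large `x` and ALL `A` with `K (A + 2) log (A + 2) ≤ log x` at
least `c x / (log (A + 2) + log log log log x)` of the `n ≤ x` are such that `2 n` has a representation
of type `(a, 0)` for every `a ≤ A`.

(2) In the range of the question: for at least `c x / log log x` of the `n ≤ x` the number `2 n` has a
representation of type `(a, b)` for ALL the types with `a = 0` or `b = 0` and `f₂(a, b) ≤ n`.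

The number of the `a`-primes up to `y` is bounded below with full uniformity in `a`, and the primes from
which the sums are formed run up to `exp (C A log A)`, while the large prime is arbitrary; the second moment
of the number of representations is bounded with the average of the singular series over the differences of
an arbitrary set (starting files).
-/

set_option autoImplicit false

open Filter Topology

namespace Pool.Agent.Results.MP_e3f158_nt.UniformTypesAZero

/-- the `x`-th prime, for `x ≥ 1` -/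
noncomputable def pr (x : ℕ) : ℕ := Nat.nth Nat.Prime (x - 1)

/-- the `x`-th `i`-prime, for `x ≥ 1`: the `(i + 1)`-fold iterate of `pr` -/
noncomputable def iPrime (i x : ℕ) : ℕ := pr^[i + 1] x

/-- `m` has a representation of type `(a, b)` -/
def HasRep (a b m : ℕ) : Prop :=
  ∃ x y : ℕ, 1 ≤ x ∧ 1 ≤ y ∧ iPrime a x + iPrime b y = m ∧ iPrime a x ≠ iPrime b y

/-- the function `f₂` of the question -/
noncomputable def f₂ (a b : ℕ) : ℝ :=
  if a = b then
    (if a = 0 then (2 : ℝ) ^ (((a : ℝ) + 1) * (b + 1) * (a + b + 2))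
      else (2 : ℝ) ^ (((a : ℝ) + 1) ^ 2 * (2 * a + 3) / a - 2 * a))
  else (2 : ℝ) ^ (((a : ℝ) + 1) * (b + 1) * (a + b + 2) - (a + b - 2))

open Pool.Agent.Y886.UT in
lemma hasRep_iff (a b m : ℕ) : HasRep a b m ↔ Rep a b m := Iff.rfl

/-- **All types `(a, b)` with `a b = 0` at once.** -/
theorem result :
    (∃ c K : ℝ, 0 < c ∧ 0 < K ∧ ∀ᶠ x : ℕ in atTop, ∀ A : ℕ,
      K * (((A : ℝ) + 2) * Real.log ((A : ℝ) + 2)) ≤ Real.log x →
      c * (x / (Real.log ((A : ℝ) + 2) + Real.log (Real.log (Real.log (Real.log x))))) ≤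
        Set.ncard {n : ℕ | n ≤ x ∧ ∀ a ≤ A, HasRep a 0 (2 * n)}) ∧
    ∃ c : ℝ, 0 < c ∧ ∀ᶠ x : ℕ in atTop,
      c * (x / Real.log (Real.log x)) ≤ Set.ncard {n : ℕ | n ≤ x ∧
        ∀ a b : ℕ, a = 0 ∨ b = 0 → f₂ a b ≤ n → HasRep a b (2 * n)} := by
  constructor
  · obtain ⟨c, K, hc, hK, h⟩ := Pool.Agent.Y886.UT.main1
    refine ⟨c, K, hc, hK, ?_⟩
    filter_upwards [h] with x hx
    intro A hA
    obtain ⟨T, hT1, hT2, hT3⟩ := hx A hA
    have hfin : {n : ℕ | n ≤ x ∧ ∀ a ≤ A, HasRep a 0 (2 * n)}.Finite :=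
      (Set.finite_Iic x).subset (fun n hn => hn.1)
    have hsub : (T : Set ℕ) ⊆ {n : ℕ | n ≤ x ∧ ∀ a ≤ A, HasRep a 0 (2 * n)} := by
      intro n hn
      rw [Finset.mem_coe] at hn
      refine ⟨(Finset.mem_Icc.1 (hT1 hn)).2, fun a ha => ?_⟩
      obtain ⟨p, q, hpq, hp, hq, hsum⟩ := hT2 n hn
      have hq0 : Pool.Agent.H197R2.PG.PI 0 q := by
        intro j hj
        have : j = 0 := by omega
        subst this
        exact hq
      exact (hasRep_iff _ _ _).2
        (Pool.Agent.Y886.UT.rep_of (Pool.Agent.Y886.UT.PI_mono ha hp) hq0 hsum (by omega))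
    have h6 := Set.ncard_le_ncard hsub hfin
    rw [Set.ncard_coe_finset] at h6
    exact hT3.trans (by exact_mod_cast h6)
  · exact Pool.Agent.Y886.UT.main2

end Pool.Agent.Results.MP_e3f158_nt.UniformTypesAZero
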